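import Pool.Agent.H73.GWQ.Stmts2

/-! Project GWQ: row N1Q, powers of a regular element. -/

set_option autoImplicit false

open Classical

namespace GWQ

section

variable {G V : Type*} [Group G] (D : QM G V)

theorem n1q_dpow (g : G) (a b : ℕ) : D.d (g ^ a) (g ^ (a + b)) = D.nm (g ^ b) := by
  have h := D.inv (g ^ a) 1 (g ^ b)
  rw [mul_one, ← pow_add] at h
  exact h

theorem N1Q (h1 : H4QStmt D) : N1QStmt D := by
  intro g hg
  have h0 : D.nm (1 : G) = 0 := D.self 1
  have h2g : D.nm (g ^ 2) ≤ 2 * D.nm g := by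
    have h3 := D.tri 1 g (g ^ 2)
    have h4 := n1q_dpow D g 1 1
    rw [pow_one] at h4
    have h5 : D.d g (g ^ 2) = D.nm g := h4
    have h6 : D.d 1 g = D.nm g := rfl
    have h7 : D.d 1 (g ^ 2) = D.nm (g ^ 2) := rfl
    omega
  have hB : BB D g + D.nm (g ^ 2) = 2 * D.nm g + 8 * D.δ := by
    unfold BB
    omega
  unfold Reg at hg
  have L1 : ∀ n : ℕ, D.nm g + D.nm (g ^ n) + 4 * D.δ ≤ D.nm (g ^ (n + 1)) + BB D g := by
    intro n
    induction n with
    | zero =>
      rw [pow_zero, h0, zero_add, pow_one]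
      omega
    | succ n ih =>
      have h2 := h1 1 (g ^ 2) g (g ^ (n + 1 + 1))
      have e1 : D.d 1 (g ^ 2) = D.nm (g ^ 2) := rfl
      have e2 : D.d g (g ^ (n + 1 + 1)) = D.nm (g ^ (n + 1)) := by
        have := n1q_dpow D g 1 (n + 1)
        rw [pow_one, add_comm 1 (n + 1)] at this
        exact this
      have e3 : D.d 1 g = D.nm g := rfl
      have e4 : D.d (g ^ 2) (g ^ (n + 1 + 1)) = D.nm (g ^ n) := by
        have := n1q_dpow D g 2 n
        rw [add_comm 2 n] at this
        exact this
      have e5 : D.d 1 (g ^ (n + 1 + 1)) = D.nm (g ^ (n + 1 + 1)) := rfl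
      have e6 : D.d (g ^ 2) g = D.nm g := by
        rw [D.comm]
        have := n1q_dpow D g 1 1
        rw [pow_one] at this
        exact this
      rw [e1, e2, e3, e4, e5, e6] at h2
      rcases le_total (D.nm g + D.nm (g ^ n)) (D.nm (g ^ (n + 1 + 1)) + D.nm g) with h3 | h3
      · rw [max_eq_right h3] at h2
        omega
      · rw [max_eq_left h3] at h2
        omega
  have L2 : ∀ n : ℕ, D.nm (g ^ n) + 1 ≤ D.nm (g ^ (n + 1)) := by
    intro n
    have h2 := L1 n
    omega
  refine ⟨fun m n => ?_, L2, fun n => ?_⟩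
  · cases n with
    | zero =>
      show D.nm (g ^ m) + D.nm (g ^ 0) ≤ D.nm (g ^ m) + BB D g
      rw [pow_zero, h0]
      omega
    | succ n =>
      have h2 := h1 1 (g ^ (m + 1)) (g ^ m) (g ^ (m + (n + 1)))
      have e1 : D.d 1 (g ^ (m + 1)) = D.nm (g ^ (m + 1)) := rfl
      have e2 : D.d (g ^ m) (g ^ (m + (n + 1))) = D.nm (g ^ (n + 1)) := n1q_dpow D g m (n + 1)
      have e3 : D.d 1 (g ^ m) = D.nm (g ^ m) := rfl
      have e4 : D.d (g ^ (m + 1)) (g ^ (m + (n + 1))) = D.nm (g ^ n) := by
        have := n1q_dpow D g (m + 1) n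
        rw [show m + 1 + n = m + (n + 1) by omega] at this
        exact this
      have e5 : D.d 1 (g ^ (m + (n + 1))) = D.nm (g ^ (m + (n + 1))) := rfl
      have e6 : D.d (g ^ (m + 1)) (g ^ m) = D.nm g := by
        rw [D.comm]
        have := n1q_dpow D g m 1
        rw [pow_one] at this
        exact this
      rw [e1, e2, e3, e4, e5, e6] at h2
      have h4 := L1 m
      have h5 := L1 n
      rcases le_total (D.nm (g ^ m) + D.nm (g ^ n)) (D.nm (g ^ (m + (n + 1))) + D.nm g) with
        h3 | h3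
      · rw [max_eq_right h3] at h2
        omega
      · rw [max_eq_left h3] at h2
        omega
  · induction n with
    | zero => exact Nat.zero_le _
    | succ n ih =>
      have h2 := L2 n
      omega

end

end GWQ
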