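import Pool.Agent.H73.GWQ.Stmts

/-! Project GWQ: row P2Q, few words are mapped near a given element. -/

set_option autoImplicit false

open Classical

namespace GWQ

section

variable {ι G V : Type*} [Fintype ι] [Group G] (C : QCode ι G V)

theorem P2Q (h1 : P2FStmt C) (h2 : GWT.FIBStmt ι (List (List ι) × List ι)) (h3 : SMQStmt C) :
    P2QStmt C := by
  intro R
  obtain ⟨A, hA, h⟩ := h1 R
  refine ⟨A, hA, fun w n u => ?_⟩
  refine h2 (fun l => GWT.mask (St C w l)) n _ (fun D => A * (C.M : ℝ) ^ D.1.length) _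
    (by positivity) (fun D _ => ?_) (fun 𝓓 h𝓓 => ?_)
  · refine le_trans (le_of_eq ?_) (h w n u D)
    congr 1
    funext l
    by_cases hl : GWT.mask (St C w l) = D
    · rw [if_pos hl, if_pos hl]
    · rw [if_neg hl, if_neg hl]
  · rw [← Finset.mul_sum]
    exact mul_le_mul_of_nonneg_left (h3 w n 𝓓 h𝓓) hA.le

end

end GWQ
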