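import Pool.Agent.H73.GWQ.Stmts

/-! Project GWQ: row POQ, popping. -/

set_option autoImplicit false

open Classical

namespace GWQ

section

variable {ι G V : Type*} [Fintype ι] [Group G] (C : QCode ι G V)

theorem POQ : POQStmt C := by
  intro w F
  induction F with
  | nil =>
    intro acc b _
    simp only [pop, GWT.full, Ok, List.length_nil, and_self]
  | cons f F ih =>
    intro acc b h
    obtain ⟨h1, h2, h3⟩ := h
    rw [pop]
    split_ifs with hr
    · obtain ⟨i1, i2, i3⟩ := ih (acc ++ f.2 ++ [f.1]) b h3
      refine ⟨?_, ?_, i3⟩
      · rw [i1]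
        simp [GWT.full]
      · simp only [List.length_cons]
        omega
    · refine ⟨?_, ?_, h1, hr, h3⟩
      · simp [GWT.full]
      · simp

end

end GWQ
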